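import Mathlib

/-!
# The critical values of a polynomial
-/

set_option autoImplicit false

open Polynomial

namespace Pool.Agent.Helper53.AC

section ring

variable {R S : Type*} [CommRing R] [CommRing S]

/-- The resultant of `F'` and `F + T`, a polynomial in `T`. -/
noncomputable def crit (n : ℕ) (F : R[X]) : R[X] :=
  resultant (F.derivative.map (C : R →+* R[X])) (F.map (C : R →+* R[X]) + C X) (n - 1) n

/-- The resultant of `crit` and its derivative. -/
noncomputable def disc2 (n : ℕ) (F : R[X]) : R :=
  resultant (crit n F) (crit n F).derivative (n - 1) (n - 2)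

lemma comp_C (φ : R →+* S) : (mapRingHom φ).comp (C : R →+* R[X]) = (C : S →+* S[X]).comp φ := by
  ext x
  simp

lemma crit_map (φ : R →+* S) (n : ℕ) (F : R[X]) : crit n (F.map φ) = (crit n F).map φ := by
  have h1 : (F.map φ).derivative.map (C : S →+* S[X]) =
      (F.derivative.map (C : R →+* R[X])).map (mapRingHom φ) := by
    rw [derivative_map, Polynomial.map_map, Polynomial.map_map, comp_C]
  have h2 : (F.map φ).map (C : S →+* S[X]) + C X =
      (F.map (C : R →+* R[X]) + C X).map (mapRingHom φ) := by
    rw [Polynomial.map_add, Polynomial.map_map, Polynomial.map_map, comp_C, Polynomial.map_C]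
    simp
  rw [crit, h1, h2, resultant_map_map]
  rfl

lemma disc2_map (φ : R →+* S) (n : ℕ) (F : R[X]) : disc2 n (F.map φ) = φ (disc2 n F) := by
  rw [disc2, crit_map, derivative_map, resultant_map_map]
  rfl

lemma crit_eval (n : ℕ) (F : R[X]) (t : R) :
    (crit n F).eval t = resultant F.derivative (F + C t) (n - 1) n := by
  have h0 : (evalRingHom t).comp (C : R →+* R[X]) = RingHom.id R := by
    ext x
    simp
  have h1 : (F.derivative.map (C : R →+* R[X])).map (evalRingHom t) = F.derivative := by
    rw [Polynomial.map_map, h0, Polynomial.map_id]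
  have h2 : (F.map (C : R →+* R[X]) + C X).map (evalRingHom t) = F + C t := by
    rw [Polynomial.map_add, Polynomial.map_map, h0, Polynomial.map_id, Polynomial.map_C]
    simp
  have h3 := resultant_map_map (F.derivative.map (C : R →+* R[X])) (F.map (C : R →+* R[X]) + C X)
    (n - 1) n (evalRingHom t)
  rw [h1, h2] at h3
  rw [h3]
  rfl

end ring

section field

variable {K : Type*} [Field K]

/-- The critical points of `F` are simple and the critical values are different. -/
def Good (F : K[X]) : Prop :=
  (∀ θ, F.derivative.eval θ = 0 → F.derivative.derivative.eval θ ≠ 0) ∧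
    ∀ θ θ', F.derivative.eval θ = 0 → F.derivative.eval θ' = 0 → F.eval θ = F.eval θ' → θ = θ'

lemma deriv_coeff {n : ℕ} (hn : 2 ≤ n) {F : K[X]} (hF : F.natDegree = n) :
    F.derivative.coeff (n - 1) = n * F.leadingCoeff := by
  rw [coeff_derivative, Nat.sub_add_cancel (by omega), leadingCoeff, hF]
  have : ((n - 1 : ℕ) : K) + 1 = n := by
    have h : n - 1 + 1 = n := by omega
    exact_mod_cast congrArg (Nat.cast : ℕ → K) h
  rw [this, mul_comm]

lemma deriv_degree {n : ℕ} (hn : 2 ≤ n) {F : K[X]} (hF : F.natDegree = n) (hnK : (n : K) ≠ 0) :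
    F.derivative.natDegree = n - 1 := by
  have hF0 : F.leadingCoeff ≠ 0 := by
    rw [Ne, leadingCoeff_eq_zero]
    rintro rfl
    simp at hF
    omega
  refine natDegree_eq_of_le_of_coeff_ne_zero ?_ ?_
  · rw [← hF]
    exact natDegree_derivative_le F
  · rw [deriv_coeff hn hF]
    exact mul_ne_zero hnK hF0

lemma crit_eq [IsAlgClosed K] {n : ℕ} (hn : 2 ≤ n) {F : K[X]} (hF : F.natDegree = n)
    (hnK : (n : K) ≠ 0) : crit n F = C ((n * F.leadingCoeff) ^ n) *
      ((F.derivative.roots.map fun θ => -F.eval θ).map fun a => X - C a).prod := by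
  have hd := deriv_degree hn hF hnK
  have hsp : F.derivative.Splits := IsAlgClosed.splits _
  have h1 := resultant_eq_prod_eval (F.derivative.map (C : K →+* K[X]))
    (F.map (C : K →+* K[X]) + C X) n ?_ (hsp.map _)
  · rw [natDegree_map_eq_of_injective C_injective, hd, leadingCoeff_map_of_injective C_injective,
      ← roots_map_of_injective_of_card_eq_natDegree C_injective hsp.natDegree_eq_card_roots.symm,
      Multiset.map_map] at h1
    rw [crit, h1, Multiset.map_map]
    congr 1
    · rw [← C_pow]
      congr 2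
      rw [leadingCoeff, hd, deriv_coeff hn hF]
    · congr 1
      refine Multiset.map_congr rfl fun θ _ => ?_
      simp only [Function.comp_apply, eval_add, eval_C, C_neg, sub_neg_eq_add]
      rw [add_comm, eval_map, eval₂_at_apply]
  · refine (natDegree_add_le _ _).trans (max_le ?_ ?_)
    · rw [natDegree_map_eq_of_injective C_injective, hF]
    · rw [natDegree_C]
      omega

lemma crit_roots [IsAlgClosed K] {n : ℕ} (hn : 2 ≤ n) {F : K[X]} (hF : F.natDegree = n)
    (hnK : (n : K) ≠ 0) : (crit n F).roots = F.derivative.roots.map fun θ => -F.eval θ := by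
  have hF0 : F.leadingCoeff ≠ 0 := by
    rw [Ne, leadingCoeff_eq_zero]
    rintro rfl
    simp at hF
    omega
  rw [crit_eq hn hF hnK, roots_C_mul _ (pow_ne_zero _ (mul_ne_zero hnK hF0)),
    roots_multiset_prod_X_sub_C]

lemma crit_natDegree [IsAlgClosed K] {n : ℕ} (hn : 2 ≤ n) {F : K[X]} (hF : F.natDegree = n)
    (hnK : (n : K) ≠ 0) : (crit n F).natDegree = n - 1 := by
  have hF0 : F.leadingCoeff ≠ 0 := by
    rw [Ne, leadingCoeff_eq_zero]
    rintro rfl
    simp at hF
    omega
  rw [crit_eq hn hF hnK, natDegree_C_mul (pow_ne_zero _ (mul_ne_zero hnK hF0)),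
    natDegree_multiset_prod_X_sub_C_eq_card, Multiset.card_map,
    ← (IsAlgClosed.splits F.derivative).natDegree_eq_card_roots, deriv_degree hn hF hnK]

lemma roots_nodup_iff {P : K[X]} (hP : P ≠ 0) [IsAlgClosed K] :
    P.roots.Nodup ↔ ∀ θ, P.eval θ = 0 → P.derivative.eval θ ≠ 0 := by
  classical
  rw [Multiset.nodup_iff_count_le_one]
  constructor
  · intro h θ h1 h2
    have h3 := h θ
    rw [count_roots] at h3
    have h4 := (one_lt_rootMultiplicity_iff_isRoot hP (t := θ)).2 ⟨h1, h2⟩
    omega
  · intro h θ
    rw [count_roots]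
    by_contra hcon
    push Not at hcon
    obtain ⟨h1, h2⟩ := (one_lt_rootMultiplicity_iff_isRoot hP (t := θ)).1 hcon
    exact h θ h1 h2

lemma good_iff [IsAlgClosed K] {n : ℕ} (hn : 2 ≤ n) {F : K[X]} (hF : F.natDegree = n)
    (hnK : (n : K) ≠ 0) : Good F ↔ (crit n F).roots.Nodup := by
  classical
  have hd := deriv_degree hn hF hnK
  have hd0 : F.derivative ≠ 0 := by
    intro h
    rw [h, natDegree_zero] at hd
    omega
  rw [crit_roots hn hF hnK]
  constructor
  · rintro ⟨h1, h2⟩
    refine Multiset.Nodup.map_on ?_ ((roots_nodup_iff hd0).2 h1)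
    intro θ hθ θ' hθ' h3
    rw [mem_roots hd0] at hθ hθ'
    exact h2 θ θ' hθ hθ' (neg_injective h3)
  · intro h
    refine ⟨(roots_nodup_iff hd0).1 (Multiset.Nodup.of_map _ h), fun θ θ' hθ hθ' h3 => ?_⟩
    exact Multiset.inj_on_of_nodup_map h θ ((mem_roots hd0).2 hθ) θ' ((mem_roots hd0).2 hθ')
      (congrArg Neg.neg h3)

lemma good_of_disc2 [IsAlgClosed K] {n : ℕ} (hn : 2 ≤ n) {F : K[X]} (hF : F.natDegree = n)
    (hnK : (n : K) ≠ 0) (h : disc2 n F ≠ 0) : Good F := by
  rw [good_iff hn hF hnK]
  have hc := crit_natDegree hn hF hnK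
  obtain ⟨a, b, -, -, e⟩ := exists_mul_add_mul_eq_C_resultant (m := n - 1) (n := n - 2)
    (crit n F) (crit n F).derivative hc.le
    ((natDegree_derivative_le _).trans (by omega)) (Or.inl (by omega))
  refine nodup_roots ?_
  refine ⟨C (disc2 n F)⁻¹ * a, C (disc2 n F)⁻¹ * b, ?_⟩
  have e2 : C (disc2 n F)⁻¹ * a * crit n F + C (disc2 n F)⁻¹ * b * (crit n F).derivative =
      C (disc2 n F)⁻¹ * (crit n F * a + (crit n F).derivative * b) := by ring
  rw [e2, e, ← C_mul]
  have e3 : (crit n F).resultant (crit n F).derivative (n - 1) (n - 2) = disc2 n F := rfl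
  rw [e3, inv_mul_cancel₀ h, C_1]

lemma disc2_of_good [IsAlgClosed K] [CharZero K] {n : ℕ} (hn : 2 ≤ n) {F : K[X]}
    (hF : F.natDegree = n) (h : Good F) : disc2 n F ≠ 0 := by
  have hnK : (n : K) ≠ 0 := by
    have : n ≠ 0 := by omega
    exact_mod_cast this
  have hc := crit_natDegree hn hF hnK
  have hc0 : crit n F ≠ 0 := by
    intro h0
    rw [h0, natDegree_zero] at hc
    omega
  rw [good_iff hn hF hnK, nodup_roots_iff_of_splits hc0 (IsAlgClosed.splits _)] at h
  have h1 := resultant_ne_zero _ _ h
  have h2 : (crit n F).derivative.natDegree = n - 2 := by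
    rw [natDegree_derivative, hc]
    omega
  rw [h2, hc] at h1
  exact h1

lemma good_comp {H E : K[X]} {l c : K} (hl : l ≠ 0)
    (h : H.comp (C l * X) = C c * E) (hH : Good H) : Good E := by
  have e0 : ∀ y, H.eval (l * y) = c * E.eval y := by
    intro y
    have := congrArg (eval y) h
    simpa [eval_comp] using this
  have hX' : derivative (C l * X : K[X]) = C l := by simp
  have h1 : C l * H.derivative.comp (C l * X) = C c * E.derivative := by
    have := congrArg derivative h
    rw [derivative_comp, hX', derivative_C_mul] at this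
    exact this
  have h2 : C l * (C l * H.derivative.derivative.comp (C l * X)) = C c * E.derivative.derivative := by
    have := congrArg derivative h1
    rw [derivative_C_mul, derivative_comp, hX', derivative_C_mul] at this
    exact this
  have e1 : ∀ y, l * H.derivative.eval (l * y) = c * E.derivative.eval y := by
    intro y
    have := congrArg (eval y) h1
    simpa only [eval_mul, eval_C, eval_comp, eval_X] using this
  have e2 : ∀ y, l * (l * H.derivative.derivative.eval (l * y)) = c * E.derivative.derivative.eval y := by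
    intro y
    have := congrArg (eval y) h2
    simpa only [eval_mul, eval_C, eval_comp, eval_X] using this
  have e3 : ∀ y, E.derivative.eval y = 0 → H.derivative.eval (l * y) = 0 := by
    intro y hy
    have := e1 y
    rw [hy, mul_zero] at this
    exact (mul_eq_zero.1 this).resolve_left hl
  refine ⟨fun y hy hy2 => ?_, fun y y' hy hy' hyy => ?_⟩
  · have := e2 y
    rw [hy2, mul_zero] at this
    exact hH.1 _ (e3 y hy) ((mul_eq_zero.1 ((mul_eq_zero.1 this).resolve_left hl)).resolve_left hl)
  · have h1 := hH.2 _ _ (e3 y hy) (e3 y' hy') (by rw [e0, e0, hyy])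
    exact mul_left_cancel₀ hl h1

lemma good_model [CharZero K] {n : ℕ} (hn : 2 ≤ n) {b : K} (hb : b ≠ 0) :
    Good (C b * X ^ n + X : K[X]) := by
  have hnK : (n : K) ≠ 0 := by
    have : n ≠ 0 := by omega
    exact_mod_cast this
  have hn1 : (n : K) - 1 ≠ 0 := by
    have h1 : ((n - 1 : ℕ) : K) ≠ 0 := by
      have : n - 1 ≠ 0 := by omega
      exact_mod_cast this
    rw [Nat.cast_sub (by omega)] at h1
    simpa using h1
  have e1 : ∀ θ : K, (C b * X ^ n + X : K[X]).derivative.eval θ = b * n * θ ^ (n - 1) + 1 := by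
    intro θ
    simp [derivative_X_pow, mul_assoc]
  have e2 : ∀ θ : K, (C b * X ^ n + X : K[X]).derivative.derivative.eval θ =
      b * n * (n - 1) * θ ^ (n - 2) := by
    intro θ
    have h3 : n - 1 - 1 = n - 2 := by omega
    simp only [derivative_add, derivative_mul, derivative_C, derivative_X_pow, derivative_X, map_natCast,
      derivative_natCast, derivative_one, eval_mul, eval_C, eval_natCast, eval_pow, eval_X,
      zero_mul, zero_add, add_zero]
    rw [Nat.cast_sub (by omega), h3]
    push_cast
    ring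
  refine ⟨fun θ hθ => ?_, fun θ θ' hθ hθ' h => ?_⟩
  · rw [e1] at hθ
    rw [e2]
    have hθ0 : θ ≠ 0 := by
      rintro rfl
      rw [zero_pow (by omega), mul_zero, zero_add] at hθ
      exact one_ne_zero hθ
    exact mul_ne_zero (mul_ne_zero (mul_ne_zero hb hnK) hn1) (pow_ne_zero _ hθ0)
  · have key : ∀ θ : K, (C b * X ^ n + X : K[X]).derivative.eval θ = 0 →
        (n : K) * (C b * X ^ n + X : K[X]).eval θ = (n - 1) * θ := by
      intro θ hθ
      rw [e1] at hθ
      have h3 : θ ^ n = θ ^ (n - 1) * θ := by
        rw [← pow_succ]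
        congr 1
        omega
      simp only [eval_add, eval_mul, eval_C, eval_pow, eval_X]
      rw [h3]
      linear_combination θ * hθ
    have h1 := key θ hθ
    have h2 := key θ' hθ'
    rw [h] at h1
    exact mul_left_cancel₀ hn1 (h1.symm.trans h2)

/-- **A linear perturbation has different critical values.** -/
theorem exists_linear [IsAlgClosed K] [CharZero K] {n : ℕ} (hn : 2 ≤ n) {G : K[X]}
    (hG : G.natDegree = n) : ∃ u : K, disc2 n (G + C u * X) ≠ 0 := by
  have hG0 : G.leadingCoeff ≠ 0 := by
    rw [Ne, leadingCoeff_eq_zero]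
    rintro rfl
    simp at hG
    omega
  let H : K[X][X] := scaleRoots (G.map C) X + X
  have hH : ∀ l : K, H.map (evalRingHom l) = scaleRoots G l + X := by
    intro l
    have h0 : (evalRingHom l).comp (C : K →+* K[X]) = RingHom.id K := by
      ext x
      simp
    simp only [H]
    rw [Polynomial.map_add, map_scaleRoots, Polynomial.map_map, h0, Polynomial.map_id, Polynomial.map_X]
    · simp
    · rw [leadingCoeff_map_of_injective C_injective]
      simpa using hG0
  have hdeg : ∀ l : K, (scaleRoots G l + X).natDegree = n := by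
    intro l
    rw [natDegree_add_eq_left_of_natDegree_lt, natDegree_scaleRoots, hG]
    rw [natDegree_scaleRoots, natDegree_X, hG]
    omega
  have h0 : (disc2 n H).eval 0 ≠ 0 := by
    have h1 : (disc2 n H).eval 0 = disc2 n (H.map (evalRingHom 0)) := (disc2_map (evalRingHom 0) n H).symm
    rw [h1, hH]
    refine disc2_of_good hn (hdeg 0) ?_
    rw [scaleRoots_zero, hG, smul_eq_C_mul]
    exact good_model hn hG0
  have h2 : X * disc2 n H ≠ 0 := by
    refine mul_ne_zero X_ne_zero ?_
    intro h
    rw [h] at h0
    simp at h0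
  obtain ⟨l, hl⟩ : ∃ l : K, (X * disc2 n H).eval l ≠ 0 := by
    by_contra hcon
    push Not at hcon
    exact h2 (Polynomial.funext fun l => by rw [hcon l, eval_zero])
  rw [eval_mul, eval_X] at hl
  have hl0 : l ≠ 0 := left_ne_zero_of_mul hl
  have h3 : disc2 n (scaleRoots G l + X) ≠ 0 := by
    rw [← hH l, disc2_map]
    exact right_ne_zero_of_mul hl
  have hnK : (n : K) ≠ 0 := by
    have : n ≠ 0 := by omega
    exact_mod_cast this
  have h4 := good_of_disc2 hn (hdeg l) hnK h3
  refine ⟨(l ^ (n - 1))⁻¹, disc2_of_good hn ?_ ?_⟩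
  · rw [natDegree_add_eq_left_of_natDegree_lt, hG]
    refine (natDegree_C_mul_le _ _).trans_lt ?_
    rw [natDegree_X, hG]
    omega
  · refine good_comp (c := l ^ n) hl0 ?_ h4
    refine Polynomial.funext fun y => ?_
    rw [eval_comp, eval_add, eval_mul, eval_C, eval_X, scaleRoots_eval_mul, hG]
    simp only [eval_X, eval_mul, eval_C, eval_add]
    have h5 : l ^ n = l ^ (n - 1) * l := by
      rw [← pow_succ]
      congr 1
      omega
    rw [h5]
    have h6 : l ^ (n - 1) ≠ 0 := pow_ne_zero _ hl0
    field_simp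

end field

end Pool.Agent.Helper53.AC
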