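import Pool.Agent.Helper53.AC.Main

/-!
# The product of the weak primes, and the form without hypotheses
-/

set_option autoImplicit false

open Polynomial Pool.Agent.Helper53.FJ
open scoped ENNReal

namespace Pool.Agent.Helper53.AC

/-- The product of the weak primes. -/
noncomputable def weakProd (f : ℤ[X]) : ℕ := ∏ᶠ p ∈ {p | Weak f p}, p

/-- The inequality `-(1 / 2) log (period g f) ≤ h`. -/
def HeightLe (g : ℕ) (f : ℤ[X]) (h : ℝ) : Prop := ENNReal.ofReal (Real.exp (-2 * h)) ≤ period g f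

lemma Weak.prime {f : ℤ[X]} {p : ℕ} (h : Weak f p) : p.Prime := by
  obtain ⟨-, -, h, -⟩ := h
  exact h.out

lemma weak_finite {n : ℕ} (hn : 2 ≤ n) {f : ℤ[X]} (hf : f.natDegree = n)
    (hsep : (f.map (Int.castRingHom ℚ)).Separable) : {p | Weak f p}.Finite := by
  have hinj : Function.Injective (Int.castRingHom ℚ) := Int.cast_injective
  have hdeg : (f.map (Int.castRingHom ℚ)).natDegree = n := by
    rw [natDegree_map_eq_of_injective hinj, hf]
  have hr : rr n f ≠ 0 := by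
    intro h0
    have h1 : rr n (f.map (Int.castRingHom ℚ)) = 0 := by rw [rr_map, h0, map_zero]
    have h2 := resultant_ne_zero _ _ hsep.symm
    rw [natDegree_derivative, hdeg] at h2
    exact h2 h1
  obtain ⟨a, b, -, -, e⟩ := exists_mul_add_mul_eq_C_resultant (m := n - 1) (n := n)
    f.derivative f ((natDegree_derivative_le _).trans (by omega)) hf.le (Or.inr (by omega))
  refine Set.Finite.subset ((rr n f).natAbs.primeFactors.finite_toSet) ?_
  rintro p ⟨-, -, hp, θ, hθ, -⟩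
  obtain ⟨h1, h2⟩ := (hθ θ).2 rfl
  have h3 := congrArg (aeval θ) e
  rw [map_add, map_mul, map_mul, h1, h2, zero_mul, zero_mul, add_zero, aeval_C] at h3
  have : CharP (AlgebraicClosure (ZMod p)) p :=
    charP_of_injective_algebraMap (algebraMap (ZMod p) (AlgebraicClosure (ZMod p))).injective p
  have h4 : (p : ℤ) ∣ rr n f := by
    rw [← CharP.intCast_eq_zero_iff (AlgebraicClosure (ZMod p)) p]
    have h5 : ((rr n f : ℤ) : AlgebraicClosure (ZMod p)) =
        algebraMap ℤ (AlgebraicClosure (ZMod p)) (resultant f.derivative f (n - 1) n) := by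
      simp [rr]
    rw [h5, ← h3]
  rw [Finset.mem_coe, Nat.mem_primeFactors]
  exact ⟨hp.out, Int.natCast_dvd.1 h4, Int.natAbs_ne_zero.2 hr⟩

lemma weakProd_eq {f : ℤ[X]} (h : {p | Weak f p}.Finite) : weakProd f = ∏ p ∈ h.toFinset, p :=
  finprod_mem_eq_finite_toFinset_prod _ h

lemma weakProd_pos {f : ℤ[X]} (h : {p | Weak f p}.Finite) : 0 < weakProd f := by
  rw [weakProd_eq h]
  exact Finset.prod_pos fun p hp => Weak.prime (h.mem_toFinset.1 hp) |>.pos

lemma dvd_weakProd {f : ℤ[X]} (h : {p | Weak f p}.Finite) {p : ℕ} (hp : Weak f p) :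
    p ∣ weakProd f := by
  rw [weakProd_eq h]
  exact Finset.dvd_prod_of_mem _ (h.mem_toFinset.2 hp)

lemma weakProd_dvd {f : ℤ[X]} (h : {p | Weak f p}.Finite) {N : ℕ} (hN : ∀ p, Weak f p → p ∣ N) :
    weakProd f ∣ N := by
  rw [weakProd_eq h]
  exact Finset.prod_primes_dvd N (fun p hp => (Weak.prime (h.mem_toFinset.1 hp)).prime)
    fun p hp => hN p (h.mem_toFinset.1 hp)

theorem all_but_few {g n : ℕ} (hg : 1 ≤ g) (hn : n = 2 * g + 1 ∨ n = 2 * g + 2) {κ c : ℝ}
    (hκ : ((n : ℝ) * g - g ^ 2 - g) / (2 * n) < κ) : ∃ δ : ℝ, 0 < δ ∧ ∃ C₁ : ℝ, ∀ L B : ℕ, 1 ≤ L →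
    1 ≤ B → (L = 1 ∨ (g : ℝ) / 2 < κ) → ∀ G : ℤ[X], G.natDegree = n →
    (∀ i, |G.coeff i| ≤ L * (B : ℤ) ^ (n - i)) → ∃ E : Finset (ℤ × ℤ),
      (E.card : ℝ) ≤ C₁ * (L * (B : ℝ) ^ (n - 1)) * (L * (B : ℝ) ^ n) ^ (1 - δ) ∧
      ∀ q : ℤ × ℤ, q ∉ E → |q.1| ≤ L * (B : ℤ) ^ (n - 1) → |q.2| ≤ L * (B : ℤ) ^ n →
        ((fib G q).map (Int.castRingHom ℚ)).Separable →
          HeightLe g (fib G q) (κ * Real.log (weakProd (fib G q)) + c) := by
  classical
  obtain ⟨δ, hδ, C₁, hC₁⟩ := almost_all (c₀ := 0) (c := c) hg hn hκ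
  refine ⟨δ, hδ, C₁, fun L B hL hB hcase G hG hcoef => ?_⟩
  let I : Finset ℤ := Finset.Icc (-(L * (B : ℤ) ^ (n - 1))) (L * (B : ℤ) ^ (n - 1))
  let J : Finset ℤ := Finset.Icc (-(L * (B : ℤ) ^ n)) (L * (B : ℤ) ^ n)
  let E : Finset (ℤ × ℤ) := (I ×ˢ J).filter fun q => ((fib G q).map (Int.castRingHom ℚ)).Separable ∧
    ¬ HeightLe g (fib G q) (κ * Real.log (weakProd (fib G q)) + c)
  refine ⟨E, hC₁ L B hL hB hcase G hG hcoef E fun q hq => ?_, fun q hq h1 h2 h3 => ?_⟩
  · obtain ⟨hIJ, hsep, hH⟩ := Finset.mem_filter.1 hq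
    obtain ⟨h1, h2⟩ := Finset.mem_product.1 hIJ
    have h1' := abs_le.2 (Finset.mem_Icc.1 h1)
    have h2' := abs_le.2 (Finset.mem_Icc.1 h2)
    have hdeg := natDegree_fib (by omega : 2 ≤ n) hG q
    have hfin := weak_finite (by omega) hdeg hsep
    have hlt : period g (fib G q) < ENNReal.ofReal
        (Real.exp (-2 * (κ * Real.log (weakProd (fib G q)) + c))) := not_le.1 hH
    have hne : period g (fib G q) ≠ ∞ := (hlt.trans_le le_top).ne
    have hpos : 0 < (period g (fib G q)).toReal := by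
      refine ENNReal.toReal_pos ?_ hne
      have h5 := period_large hg hL hB hdeg.le (coeff_fib hcoef h1' h2')
      have hB0 : (0 : ℝ) < B := by exact_mod_cast hB
      have hL0 : (0 : ℝ) < L := by exact_mod_cast hL
      have hc := cst'_pos (n := n) hg
      have h6 : 0 < cst' g n * ((B : ℝ) ^ (2 * (Q g).card) * ((B : ℝ) ^ 2) ^ g /
        ((L : ℝ) * (B : ℝ) ^ n) ^ g) := by positivity
      exact ((ENNReal.ofReal_pos.2 h6).trans_le h5).ne'
    have h7 : (period g (fib G q)).toReal < Real.exp (-2 * (κ * Real.log (weakProd (fib G q)) + c)) := by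
      have := (ENNReal.toReal_lt_toReal hne ENNReal.ofReal_ne_top).2 hlt
      rwa [ENNReal.toReal_ofReal (Real.exp_pos _).le] at this
    have h8 := Real.log_lt_log hpos h7
    rw [Real.log_exp] at h8
    exact ⟨h1', h2', hne, -(1 / 2) * Real.log (period g (fib G q)).toReal, weakProd (fib G q),
      weakProd_pos hfin, fun p hp => dvd_weakProd hfin hp, by linarith, by linarith⟩
  · by_contra hH
    apply hq
    refine Finset.mem_filter.2 ⟨Finset.mem_product.2 ⟨Finset.mem_Icc.2 (abs_le.1 h1),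
      Finset.mem_Icc.2 (abs_le.1 h2)⟩, h3, hH⟩

end Pool.Agent.Helper53.AC
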