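import Mathlib

/-!
# Counting integers with few prime divisors outside a given set
-/

set_option autoImplicit false

open Finset

namespace Pool.Agent.Helper53.AC

/-- `n ↦ n ^ (-ε)` -/
noncomputable def pw (ε : ℝ) : ℕ →* ℝ where
  toFun n := (n : ℝ) ^ (-ε)
  map_one' := by simp
  map_mul' m n := by
    push_cast
    exact Real.mul_rpow (by positivity) (by positivity)

lemma pw_apply (ε : ℝ) (n : ℕ) : pw ε n = (n : ℝ) ^ (-ε) := rfl

/-- Rankin's trick. -/
lemma rankin (ε : ℝ) (hε : 0 < ε) (S : Finset ℕ) (hS : ∀ p ∈ S, p.Prime) (Z : ℕ) :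
    (((Finset.Icc 1 Z).filter fun D => D.primeFactors ⊆ S).card : ℝ) ≤
      (Z : ℝ) ^ ε * ∏ p ∈ S, (1 - (p : ℝ) ^ (-ε))⁻¹ := by
  have hlt : ∀ {p : ℕ}, p.Prime → ‖pw ε p‖ < 1 := by
    intro p hp
    have hp1 : (1 : ℝ) < p := by exact_mod_cast hp.one_lt
    rw [pw_apply, Real.norm_of_nonneg (by positivity)]
    exact Real.rpow_lt_one_of_one_lt_of_neg hp1 (by linarith)
  have h1 := (EulerProduct.summable_and_hasSum_factoredNumbers_prod_filter_prime_geometric hlt S).2
  rw [Finset.filter_true_of_mem hS] at h1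
  have h2 : HasSum ((Nat.factoredNumbers S).indicator (pw ε)) (∏ p ∈ S, (1 - pw ε p)⁻¹) := by
    rw [← hasSum_subtype_iff_indicator]
    exact h1
  have h3 := sum_le_hasSum ((Finset.Icc 1 Z).filter fun D => D.primeFactors ⊆ S) (fun n _ => by
    apply Set.indicator_nonneg
    intro n _
    rw [pw_apply]
    positivity) h2
  calc (((Finset.Icc 1 Z).filter fun D => D.primeFactors ⊆ S).card : ℝ)
      = ∑ _D ∈ (Finset.Icc 1 Z).filter (fun D => D.primeFactors ⊆ S), (1 : ℝ) := by simp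
    _ ≤ ∑ D ∈ (Finset.Icc 1 Z).filter (fun D => D.primeFactors ⊆ S),
        (Z : ℝ) ^ ε * (Nat.factoredNumbers S).indicator (pw ε) D := by
        refine Finset.sum_le_sum fun D hD => ?_
        rw [Finset.mem_filter, Finset.mem_Icc] at hD
        obtain ⟨⟨h4, h5⟩, h6⟩ := hD
        have hmem : D ∈ Nat.factoredNumbers S := by
          rw [Nat.mem_factoredNumbers]
          refine ⟨by omega, fun p hp => h6 ?_⟩
          rw [Nat.mem_primeFactors_iff_mem_primeFactorsList]
          exact hp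
        rw [Set.indicator_of_mem hmem, pw_apply, Real.rpow_neg (Nat.cast_nonneg D), ← div_eq_mul_inv,
          one_le_div (by positivity)]
        exact Real.rpow_le_rpow (Nat.cast_nonneg D) (by exact_mod_cast h5) hε.le
    _ = (Z : ℝ) ^ ε * ∑ D ∈ (Finset.Icc 1 Z).filter (fun D => D.primeFactors ⊆ S),
        (Nat.factoredNumbers S).indicator (pw ε) D := by rw [Finset.mul_sum]
    _ ≤ (Z : ℝ) ^ ε * ∏ p ∈ S, (1 - (p : ℝ) ^ (-ε))⁻¹ :=
        mul_le_mul_of_nonneg_left h3 (by positivity)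

/-- The number of integers up to `Z` whose prime divisors divide `N`. -/
lemma smooth_count (ε : ℝ) (hε : 0 < ε) : ∃ C : ℝ, 0 < C ∧ ∀ N Z : ℕ, 1 ≤ N →
    (((Finset.Icc 1 Z).filter fun D => D.primeFactors ⊆ N.primeFactors).card : ℝ) ≤
      C * ((Z : ℝ) * N) ^ ε := by
  let P₀ : ℕ := ⌈(2 : ℝ) ^ (1 / ε)⌉₊
  let K : ℝ := (1 - (2 : ℝ) ^ (-ε))⁻¹
  have hy0 : 0 < (2 : ℝ) ^ (-ε) := by positivity
  have hy1 : (2 : ℝ) ^ (-ε) < 1 := Real.rpow_lt_one_of_one_lt_of_neg (by norm_num) (by linarith)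
  have hK : 1 ≤ K := by
    refine (one_le_inv₀ (by linarith)).2 (by linarith)
  refine ⟨K ^ P₀, by positivity, fun N Z hN => ?_⟩
  have h1 := rankin ε hε N.primeFactors (fun p hp => Nat.prime_of_mem_primeFactors hp) Z
  have h2 : ∏ p ∈ N.primeFactors, (1 - (p : ℝ) ^ (-ε))⁻¹ ≤
      ∏ p ∈ N.primeFactors, ((if p < P₀ then K else 1) * (p : ℝ) ^ ε) := by
    refine Finset.prod_le_prod (fun p hp => ?_) fun p hp => ?_
    · have hp1 : (1 : ℝ) < p := by exact_mod_cast (Nat.prime_of_mem_primeFactors hp).one_lt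
      have := Real.rpow_lt_one_of_one_lt_of_neg hp1 (by linarith : -ε < 0)
      exact inv_nonneg.2 (by linarith)
    · have hpp := Nat.prime_of_mem_primeFactors hp
      have hp1 : (1 : ℝ) < p := by exact_mod_cast hpp.one_lt
      have hp2 : (2 : ℝ) ≤ p := by exact_mod_cast hpp.two_le
      have hp0 : (0 : ℝ) < p := by linarith
      have hx1 := Real.rpow_lt_one_of_one_lt_of_neg hp1 (by linarith : -ε < 0)
      split_ifs with hlt
      · have hxy : (p : ℝ) ^ (-ε) ≤ (2 : ℝ) ^ (-ε) :=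
          Real.rpow_le_rpow_of_nonpos (by norm_num) hp2 (by linarith)
        have h3 : (1 - (p : ℝ) ^ (-ε))⁻¹ ≤ K := inv_anti₀ (by linarith) (by linarith)
        have h4 : (1 : ℝ) ≤ (p : ℝ) ^ ε := Real.one_le_rpow hp1.le hε.le
        nlinarith
      · rw [one_mul]
        have h3 : (2 : ℝ) ≤ (p : ℝ) ^ ε := by
          have h4 : (2 : ℝ) ^ (1 / ε) ≤ p := by
            refine (Nat.le_ceil _).trans ?_
            exact_mod_cast not_lt.1 hlt
          calc (2 : ℝ) = ((2 : ℝ) ^ (1 / ε)) ^ ε := by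
                rw [← Real.rpow_mul (by norm_num), one_div_mul_cancel hε.ne', Real.rpow_one]
            _ ≤ (p : ℝ) ^ ε := Real.rpow_le_rpow (by positivity) h4 hε.le
        rw [Real.rpow_neg hp0.le]
        set y := (p : ℝ) ^ ε with hy
        have hy0' : 0 < y := by linarith
        have hlt1 : y⁻¹ ≤ 1 / 2 := by
          rw [inv_eq_one_div]
          exact one_div_le_one_div_of_le (by norm_num) h3
        rw [inv_le_comm₀ (by linarith) hy0']
        linarith
  have h3 : ∏ p ∈ N.primeFactors, ((if p < P₀ then K else 1) * (p : ℝ) ^ ε) ≤ K ^ P₀ * (N : ℝ) ^ ε := by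
    rw [Finset.prod_mul_distrib]
    refine mul_le_mul ?_ ?_ (Finset.prod_nonneg fun p _ => by positivity) (by positivity)
    · rw [Finset.prod_ite, Finset.prod_const, Finset.prod_const_one, mul_one]
      refine pow_le_pow_right₀ hK ?_
      calc (N.primeFactors.filter fun p => p < P₀).card ≤ (Finset.range P₀).card :=
            Finset.card_le_card fun p hp => Finset.mem_range.2 (Finset.mem_filter.1 hp).2
        _ = P₀ := Finset.card_range _
    · rw [Real.finsetProd_rpow _ _ (fun p _ => Nat.cast_nonneg p)]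
      refine Real.rpow_le_rpow (Finset.prod_nonneg fun p _ => Nat.cast_nonneg p) ?_ hε.le
      have h4 : ∏ p ∈ N.primeFactors, p ≤ N := Nat.le_of_dvd (by omega) (Nat.prod_primeFactors_dvd N)
      have h5 : ((∏ p ∈ N.primeFactors, p : ℕ) : ℝ) ≤ N := Nat.cast_le.2 h4
      rwa [Nat.cast_prod] at h5
  calc _ ≤ (Z : ℝ) ^ ε * ∏ p ∈ N.primeFactors, (1 - (p : ℝ) ^ (-ε))⁻¹ := h1
    _ ≤ (Z : ℝ) ^ ε * (K ^ P₀ * (N : ℝ) ^ ε) :=
        mul_le_mul_of_nonneg_left (h2.trans h3) (by positivity)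
    _ = K ^ P₀ * ((Z : ℝ) * N) ^ ε := by
        rw [Real.mul_rpow (by positivity) (by positivity)]
        ring

/-- The product of the primes which divide `D` but not `M`. -/
def away (M D : ℕ) : ℕ := ∏ p ∈ D.primeFactors.filter (fun p => ¬ p ∣ M), p

/-- The number of integers up to `Z` such that the product of the primes which divide them but not `M` is small. -/
lemma count_away (ε : ℝ) (hε : 0 < ε) : ∃ C : ℝ, 0 < C ∧ ∀ M Z Y : ℕ, 1 ≤ M →
    (((Finset.Icc 1 Z).filter fun D => away M D ≤ Y).card : ℝ) ≤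
      C * Y * ((Z : ℝ) * (Y * M)) ^ ε := by
  classical
  obtain ⟨C, hC, h⟩ := smooth_count ε hε
  refine ⟨C, hC, fun M Z Y hM => ?_⟩
  have hsub : ((Finset.Icc 1 Z).filter fun D => away M D ≤ Y) ⊆
      (Finset.Icc 1 Y).biUnion fun w => (Finset.Icc 1 Z).filter fun D =>
        D.primeFactors ⊆ (w * M).primeFactors := by
    intro D hD
    rw [Finset.mem_filter, Finset.mem_Icc] at hD
    rw [Finset.mem_biUnion]
    have h0 : 0 < away M D := Finset.prod_pos fun p hp =>
      (Nat.prime_of_mem_primeFactors (Finset.mem_filter.1 hp).1).pos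
    refine ⟨away M D, Finset.mem_Icc.2 ⟨h0, hD.2⟩, ?_⟩
    rw [Finset.mem_filter, Finset.mem_Icc]
    refine ⟨hD.1, fun p hp => ?_⟩
    rw [Nat.mem_primeFactors]
    refine ⟨Nat.prime_of_mem_primeFactors hp, ?_, by positivity⟩
    by_cases hpM : p ∣ M
    · exact Dvd.dvd.mul_left hpM _
    · refine Dvd.dvd.mul_right ?_ _
      exact Finset.dvd_prod_of_mem _ (Finset.mem_filter.2 ⟨hp, hpM⟩)
  calc (((Finset.Icc 1 Z).filter fun D => away M D ≤ Y).card : ℝ)
      ≤ (((Finset.Icc 1 Y).biUnion fun w => (Finset.Icc 1 Z).filter fun D =>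
        D.primeFactors ⊆ (w * M).primeFactors).card : ℝ) := by
        exact_mod_cast Finset.card_le_card hsub
    _ ≤ ∑ w ∈ Finset.Icc 1 Y, (((Finset.Icc 1 Z).filter fun D =>
        D.primeFactors ⊆ (w * M).primeFactors).card : ℝ) := by
        exact_mod_cast Finset.card_biUnion_le
    _ ≤ ∑ _w ∈ Finset.Icc 1 Y, C * ((Z : ℝ) * (Y * M)) ^ ε := by
        refine Finset.sum_le_sum fun w hw => ?_
        rw [Finset.mem_Icc] at hw
        have hw1 : 1 ≤ w * M := Nat.mul_pos hw.1 hM
        refine (h (w * M) Z hw1).trans (mul_le_mul_of_nonneg_left ?_ hC.le)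
        refine Real.rpow_le_rpow (by positivity) ?_ hε.le
        have hwY : (w : ℝ) ≤ Y := by exact_mod_cast hw.2
        push_cast
        gcongr
    _ = C * Y * ((Z : ℝ) * (Y * M)) ^ ε := by
        rw [Finset.sum_const, Nat.card_Icc, nsmul_eq_mul, Nat.add_sub_cancel]
        ring

open Polynomial in
/-- The fibres of a polynomial. -/
lemma count_poly (R : ℤ[X]) {k : ℕ} (hk : R.natDegree = k) (hk0 : 1 ≤ k) (S : Finset ℕ) (s : Finset ℤ)
    (hs : ∀ t ∈ s, (R.eval t).natAbs ∈ S) : s.card ≤ 2 * k * S.card := by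
  classical
  refine Finset.card_le_mul_card_image_of_maps_to hs (2 * k) fun D _ => ?_
  have hne : ∀ c : ℤ, R - C c ≠ 0 := by
    intro c h0
    have h1 : R.natDegree = 0 := by
      rw [sub_eq_zero.1 h0, natDegree_C]
    omega
  have hcard : ∀ c : ℤ, (R - C c).roots.toFinset.card ≤ k := by
    intro c
    calc (R - C c).roots.toFinset.card ≤ Multiset.card (R - C c).roots := Multiset.toFinset_card_le _
      _ ≤ (R - C c).natDegree := card_roots' _
      _ = k := by rw [natDegree_sub_C, hk]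
  have hsub : (s.filter fun t => (R.eval t).natAbs = D) ⊆
      (R - C (D : ℤ)).roots.toFinset ∪ (R - C (-(D : ℤ))).roots.toFinset := by
    intro t ht
    have h1 := (Finset.mem_filter.1 ht).2
    rw [Finset.mem_union, Multiset.mem_toFinset, Multiset.mem_toFinset, mem_roots (hne _),
      mem_roots (hne _)]
    simp only [IsRoot.def, eval_sub, eval_C]
    omega
  calc _ ≤ _ := Finset.card_le_card hsub
    _ ≤ _ := Finset.card_union_le _ _
    _ ≤ k + k := Nat.add_le_add (hcard _) (hcard _)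
    _ = 2 * k := by ring

end Pool.Agent.Helper53.AC
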