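import Pool.Agent.Helper53.AC.Crit
import Pool.Agent.Helper53.AC.Smooth

/-!
# Bounds for the discriminants, and the weak primes
-/

set_option autoImplicit false

open Polynomial

namespace Pool.Agent.Helper53.AC

/-- The generic polynomial. -/
noncomputable def gen (n : ℕ) : (MvPolynomial (Fin (n + 1)) ℤ)[X] :=
  ∑ i : Fin (n + 1), C (MvPolynomial.X i) * X ^ (i : ℕ)

lemma gen_map {S : Type*} [CommRing S] [Algebra ℤ S] (n : ℕ) (F : S[X]) (hF : F.natDegree ≤ n) :
    (gen n).map (MvPolynomial.aeval (fun i : Fin (n + 1) => F.coeff i) :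
      MvPolynomial (Fin (n + 1)) ℤ →ₐ[ℤ] S).toRingHom = F := by
  conv_rhs => rw [F.as_sum_range_C_mul_X_pow' (Nat.lt_succ_of_le hF)]
  rw [gen, Polynomial.map_sum, Finset.sum_range]
  refine Finset.sum_congr rfl fun i _ => ?_
  simp

lemma eval_bound {σ : Type*} (P : MvPolynomial σ ℤ) : ∃ K A : ℕ, ∀ x : σ → ℤ, ∀ B : ℕ, 1 ≤ B →
    (∀ i, |x i| ≤ B) → |MvPolynomial.aeval x P| ≤ K * (B : ℤ) ^ A := by
  induction P using MvPolynomial.induction_on with
  | C a =>
    refine ⟨a.natAbs, 0, fun x B _ _ => ?_⟩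
    simp
  | add p q hp hq =>
    obtain ⟨K, A, h⟩ := hp
    obtain ⟨K', A', h'⟩ := hq
    refine ⟨K + K', A + A', fun x B hB hx => ?_⟩
    have hB' : (1 : ℤ) ≤ B := by exact_mod_cast hB
    rw [map_add]
    have h1 := h x B hB hx
    have h2 := h' x B hB hx
    have h3 : (B : ℤ) ^ A ≤ (B : ℤ) ^ (A + A') := pow_le_pow_right₀ hB' (by omega)
    have h4 : (B : ℤ) ^ A' ≤ (B : ℤ) ^ (A + A') := pow_le_pow_right₀ hB' (by omega)
    have h5 : (K : ℤ) * (B : ℤ) ^ A ≤ K * (B : ℤ) ^ (A + A') := mul_le_mul_of_nonneg_left h3 (by positivity)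
    have h6 : (K' : ℤ) * (B : ℤ) ^ A' ≤ K' * (B : ℤ) ^ (A + A') := mul_le_mul_of_nonneg_left h4 (by positivity)
    push_cast
    calc _ ≤ _ := abs_add_le _ _
      _ ≤ K * (B : ℤ) ^ (A + A') + K' * (B : ℤ) ^ (A + A') := add_le_add (h1.trans h5) (h2.trans h6)
      _ = _ := by ring
  | mul_X p i hp =>
    obtain ⟨K, A, h⟩ := hp
    refine ⟨K, A + 1, fun x B hB hx => ?_⟩
    have h1 := h x B hB hx
    rw [map_mul, MvPolynomial.aeval_X, abs_mul, pow_succ, ← mul_assoc]
    exact mul_le_mul h1 (hx i) (abs_nonneg _) (by positivity)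

/-- The discriminant. -/
noncomputable def rr {R : Type*} [CommRing R] (n : ℕ) (f : R[X]) : R := resultant f.derivative f (n - 1) n

lemma rr_map {R S : Type*} [CommRing R] [CommRing S] (φ : R →+* S) (n : ℕ) (f : R[X]) :
    rr n (f.map φ) = φ (rr n f) := by
  rw [rr, derivative_map, resultant_map_map]
  rfl

lemma crit_eval_rr {R : Type*} [CommRing R] (n : ℕ) (F : R[X]) (t : R) :
    (crit n F).eval t = rr n (F + C t) := by
  rw [crit_eval, rr, derivative_add, derivative_C, add_zero]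

lemma size_rr (n : ℕ) : ∃ K A : ℕ, ∀ f : ℤ[X], f.natDegree ≤ n → ∀ B : ℕ, 1 ≤ B →
    (∀ i, |f.coeff i| ≤ B) → |rr n f| ≤ K * (B : ℤ) ^ A := by
  obtain ⟨K, A, h⟩ := eval_bound (rr n (gen n))
  refine ⟨K, A, fun f hf B hB hx => ?_⟩
  have h1 := rr_map (MvPolynomial.aeval (fun i : Fin (n + 1) => f.coeff i) :
      MvPolynomial (Fin (n + 1)) ℤ →ₐ[ℤ] ℤ).toRingHom n (gen n)
  rw [gen_map n f hf] at h1
  rw [h1]
  exact h _ B hB fun i => hx i

lemma size_disc2 (n : ℕ) : ∃ K A : ℕ, ∀ f : ℤ[X], f.natDegree ≤ n → ∀ B : ℕ, 1 ≤ B →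
    (∀ i, |f.coeff i| ≤ B) → |disc2 n f| ≤ K * (B : ℤ) ^ A := by
  obtain ⟨K, A, h⟩ := eval_bound (disc2 n (gen n))
  refine ⟨K, A, fun f hf B hB hx => ?_⟩
  have h1 := disc2_map (MvPolynomial.aeval (fun i : Fin (n + 1) => f.coeff i) :
      MvPolynomial (Fin (n + 1)) ℤ →ₐ[ℤ] ℤ).toRingHom n (gen n)
  rw [gen_map n f hf] at h1
  rw [h1]
  exact h _ B hB fun i => hx i

/-- The number of exceptional linear perturbations. -/
lemma few_linear {n : ℕ} (hn : 2 ≤ n) : ∃ A : ℕ, ∀ G : ℤ[X], G.natDegree = n → ∀ s : Finset ℤ,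
    (∀ u ∈ s, disc2 n (G + C u * X) = 0) → s.card ≤ A := by
  classical
  refine ⟨(disc2 n (gen n)).totalDegree, fun G hG s hs => ?_⟩
  let GU : ℤ[X][X] := G.map C + C X * X
  have hdegU : GU.natDegree ≤ n := by
    refine (natDegree_add_le _ _).trans (max_le ?_ ?_)
    · exact (natDegree_map_le).trans hG.le
    · refine (natDegree_C_mul_le _ _).trans ?_
      rw [natDegree_X]
      omega
  have hev : ∀ u : ℤ, (disc2 n GU).eval u = disc2 n (G + C u * X) := by
    intro u
    have h1 : GU.map (evalRingHom u) = G + C u * X := by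
      have h0 : (evalRingHom u).comp (C : ℤ →+* ℤ[X]) = RingHom.id ℤ := RingHom.ext_int _ _
      simp only [GU]
      rw [Polynomial.map_add, Polynomial.map_map, h0, Polynomial.map_id, Polynomial.map_mul,
        Polynomial.map_C, Polynomial.map_X]
      simp
    rw [← h1, disc2_map]
    rfl
  have hne : disc2 n GU ≠ 0 := by
    intro h0
    have hGC : (G.map (Int.castRingHom ℂ)).natDegree = n := by
      rw [natDegree_map_eq_of_injective (Int.cast_injective), hG]
    obtain ⟨u, hu⟩ := exists_linear hn hGC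
    apply hu
    have h1 : GU.map (eval₂RingHom (Int.castRingHom ℂ) u) = G.map (Int.castRingHom ℂ) + C u * X := by
      have h0 : (eval₂RingHom (Int.castRingHom ℂ) u).comp (C : ℤ →+* ℤ[X]) = Int.castRingHom ℂ :=
        RingHom.ext_int _ _
      simp only [GU]
      rw [Polynomial.map_add, Polynomial.map_map, h0, Polynomial.map_mul,
        Polynomial.map_C, Polynomial.map_X]
      simp
    rw [← h1, disc2_map, h0, map_zero]
  have hdeg : (disc2 n GU).natDegree ≤ (disc2 n (gen n)).totalDegree := by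
    have h1 := disc2_map (MvPolynomial.aeval (fun i : Fin (n + 1) => GU.coeff i) :
      MvPolynomial (Fin (n + 1)) ℤ →ₐ[ℤ] ℤ[X]).toRingHom n (gen n)
    rw [gen_map n GU hdegU] at h1
    rw [h1]
    have h2 := MvPolynomial.aeval_natDegree_le (disc2 n (gen n)) le_rfl
      (fun i : Fin (n + 1) => GU.coeff i) (n := 1) ?_
    · rw [mul_one] at h2
      exact h2
    · intro i
      simp only [GU, coeff_add, coeff_map, coeff_C_mul]
      refine (natDegree_add_le _ _).trans (max_le ?_ ?_)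
      · rw [natDegree_C]
        omega
      · rw [coeff_X]
        split_ifs
        · rw [mul_one, natDegree_X]
        · rw [mul_zero, natDegree_zero]
          omega
  have hsub : s ⊆ (disc2 n GU).roots.toFinset := by
    intro u hu
    rw [Multiset.mem_toFinset, mem_roots hne, IsRoot.def, hev]
    exact hs u hu
  calc s.card ≤ (disc2 n GU).roots.toFinset.card := Finset.card_le_card hsub
    _ ≤ Multiset.card (disc2 n GU).roots := Multiset.toFinset_card_le _
    _ ≤ (disc2 n GU).natDegree := card_roots' _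
    _ ≤ _ := hdeg

/-- Modulo the odd prime `p` (which does not divide the leading coefficient) the polynomial `f` has, over an algebraic
closure of `𝔽_p`, exactly one multiple root, and this root is a double root. -/
def Weak (f : ℤ[X]) (p : ℕ) : Prop :=
  p ≠ 2 ∧ ¬ (p : ℤ) ∣ f.leadingCoeff ∧ ∃ _ : Fact p.Prime, ∃ θ : AlgebraicClosure (ZMod p),
    (∀ x, aeval x f = 0 ∧ aeval x f.derivative = 0 ↔ x = θ) ∧ aeval θ f.derivative.derivative ≠ 0

lemma weak_of_dvd {n : ℕ} (hn : 2 ≤ n) {F : ℤ[X]} (hF : F.natDegree = n) {p : ℕ} (hp : p.Prime)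
    (h : ¬ (p : ℤ) ∣ 2 * n * F.leadingCoeff * disc2 n F) {t : ℤ} (ht : (p : ℤ) ∣ (crit n F).eval t) :
    Weak (F + C t) p := by
  classical
  have : Fact p.Prime := ⟨hp⟩
  let K := AlgebraicClosure (ZMod p)
  have : CharP K p := charP_of_injective_algebraMap (algebraMap (ZMod p) K).injective p
  let φ : ℤ →+* K := algebraMap ℤ K
  have hφ : ∀ m : ℤ, φ m = 0 ↔ (p : ℤ) ∣ m := by
    intro m
    rw [← CharP.intCast_eq_zero_iff K p m]
    simp [φ]
  have h2 : ¬ (p : ℤ) ∣ 2 := fun hd =>
    h (((hd.mul_right _).mul_right _).mul_right _)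
  have hpn : ¬ (p : ℤ) ∣ n := fun hd => h (((hd.mul_left _).mul_right _).mul_right _)
  have hpl : ¬ (p : ℤ) ∣ F.leadingCoeff := fun hd => h ((hd.mul_left _).mul_right _)
  have hpd : ¬ (p : ℤ) ∣ disc2 n F := fun hd => h (hd.mul_left _)
  have hdegt : (F + C t).natDegree = n := by rw [natDegree_add_C, hF]
  have hlct : (F + C t).leadingCoeff = F.leadingCoeff := by
    rw [leadingCoeff, hdegt, leadingCoeff, hF, coeff_add, coeff_C_of_ne_zero (by omega), add_zero]
  have hlK : φ F.leadingCoeff ≠ 0 := fun h0 => hpl ((hφ _).1 h0)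
  have hFK : (F.map φ).natDegree = n := by
    rw [natDegree_map_of_leadingCoeff_ne_zero _ hlK, hF]
  have hnK : (n : K) ≠ 0 := by
    have h3 : φ (n : ℤ) ≠ 0 := fun h0 => hpn ((hφ _).1 h0)
    simpa [φ] using h3
  have hdK : disc2 n (F.map φ) ≠ 0 := by
    rw [disc2_map]
    exact fun h0 => hpd ((hφ _).1 h0)
  have hgood := good_of_disc2 hn hFK hnK hdK
  have hcne : crit n (F.map φ) ≠ 0 := by
    intro h0
    have h1 := crit_natDegree hn hFK hnK
    rw [h0, natDegree_zero] at h1
    omega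
  have hroot : φ t ∈ (crit n (F.map φ)).roots := by
    rw [mem_roots hcne, IsRoot.def, crit_map, eval_map, eval₂_at_apply]
    exact (hφ _).2 ht
  rw [crit_roots hn hFK hnK, Multiset.mem_map] at hroot
  obtain ⟨θ, hθ, hθt⟩ := hroot
  have hd0 : (F.map φ).derivative ≠ 0 := by
    intro h0
    have h1 := deriv_degree hn hFK hnK
    rw [h0, natDegree_zero] at h1
    omega
  rw [mem_roots hd0, IsRoot.def] at hθ
  have e0 : ∀ x : K, aeval x (F + C t) = (F.map φ).eval x + φ t := by
    intro x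
    rw [map_add, aeval_C, aeval_def, eval_map]
  have e1 : ∀ x : K, aeval x (F + C t).derivative = (F.map φ).derivative.eval x := by
    intro x
    rw [derivative_add, derivative_C, add_zero, aeval_def, derivative_map, eval_map]
  have e2 : ∀ x : K, aeval x (F + C t).derivative.derivative = (F.map φ).derivative.derivative.eval x := by
    intro x
    rw [derivative_add, derivative_C, add_zero, aeval_def, derivative_map, derivative_map, eval_map]
  refine ⟨?_, ?_, ⟨hp⟩, θ, fun x => ?_, ?_⟩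
  · rintro rfl
    exact h2 (by norm_num)
  · rw [hlct]
    exact hpl
  · rw [e0, e1]
    constructor
    · rintro ⟨h3, h4⟩
      refine hgood.2 x θ h4 hθ ?_
      rw [← hθt] at h3
      linear_combination h3
    · rintro rfl
      refine ⟨?_, hθ⟩
      rw [← hθt]
      ring
  · rw [e2]
    exact hgood.1 θ hθ

end Pool.Agent.Helper53.AC
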