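import Pool.Agent.Helper53.AC.Per

/-!
# Frey's inequality for almost all hyperelliptic curves
-/

set_option autoImplicit false

open Polynomial Pool.Agent.Helper53.FJ
open scoped ENNReal

namespace Pool.Agent.Helper53.AC

/-- The polynomial `G + u x + t`. -/
noncomputable def fib (G : ℤ[X]) (q : ℤ × ℤ) : ℤ[X] := G + C q.1 * X + C q.2

lemma coeff_lin {n L B : ℕ} {G : ℤ[X]}
    (ha : ∀ i, |G.coeff i| ≤ L * (B : ℤ) ^ (n - i)) {u : ℤ} (hu : |u| ≤ L * (B : ℤ) ^ (n - 1)) (i : ℕ) :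
    |(G + C u * X).coeff i| ≤ 2 * L * (B : ℤ) ^ (n - i) := by
  have h1 := ha i
  have h2 : (0 : ℤ) ≤ L * (B : ℤ) ^ (n - i) := by positivity
  rw [coeff_add, coeff_C_mul, coeff_X]
  split_ifs with h
  · rw [mul_one]
    rw [← h] at h1 ⊢
    calc _ ≤ _ := abs_add_le _ _
      _ ≤ L * (B : ℤ) ^ (n - 1) + L * (B : ℤ) ^ (n - 1) := add_le_add h1 hu
      _ = _ := by ring
  · rw [mul_zero, add_zero]
    linarith

lemma coeff_fib {n L B : ℕ} {G : ℤ[X]}
    (ha : ∀ i, |G.coeff i| ≤ L * (B : ℤ) ^ (n - i)) {q : ℤ × ℤ} (hu : |q.1| ≤ L * (B : ℤ) ^ (n - 1))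
    (ht : |q.2| ≤ L * (B : ℤ) ^ n) (i : ℕ) :
    |(fib G q).coeff i| ≤ 2 * L * (B : ℤ) ^ (n - i) := by
  rcases Nat.eq_zero_or_pos i with rfl | hi
  · have h1 := ha 0
    rw [Nat.sub_zero] at h1 ⊢
    have e1 : (fib G q).coeff 0 = G.coeff 0 + q.2 := by simp [fib]
    rw [e1]
    calc _ ≤ _ := abs_add_le _ _
      _ ≤ L * (B : ℤ) ^ n + L * (B : ℤ) ^ n := add_le_add h1 ht
      _ = _ := by ring
  · have e1 : (fib G q).coeff i = (G + C q.1 * X).coeff i := by
      rw [fib, coeff_add, coeff_C_of_ne_zero (by omega), add_zero]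
    rw [e1]
    exact coeff_lin ha hu i

lemma natDegree_lin {n : ℕ} (hn : 2 ≤ n) {G : ℤ[X]} (hG : G.natDegree = n) (u : ℤ) :
    (G + C u * X).natDegree = n := by
  rw [natDegree_add_eq_left_of_natDegree_lt, hG]
  refine (natDegree_C_mul_le _ _).trans_lt ?_
  rw [natDegree_X, hG]
  omega

lemma natDegree_fib {n : ℕ} (hn : 2 ≤ n) {G : ℤ[X]} (hG : G.natDegree = n) (q : ℤ × ℤ) :
    (fib G q).natDegree = n := by
  rw [fib, natDegree_add_C, natDegree_lin hn hG]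

theorem almost_all {g n : ℕ} (hg : 1 ≤ g) (hn : n = 2 * g + 1 ∨ n = 2 * g + 2) {c₀ κ c : ℝ}
    (hκ : ((n : ℝ) * g - g ^ 2 - g) / (2 * n) < κ) : ∃ δ : ℝ, 0 < δ ∧ ∃ C₁ : ℝ, ∀ L B : ℕ, 1 ≤ L →
    1 ≤ B → (L = 1 ∨ (g : ℝ) / 2 < κ) → ∀ G : ℤ[X], G.natDegree = n →
    (∀ i, |G.coeff i| ≤ L * (B : ℤ) ^ (n - i)) → ∀ s : Finset (ℤ × ℤ),
    (∀ q ∈ s, |q.1| ≤ L * (B : ℤ) ^ (n - 1) ∧ |q.2| ≤ L * (B : ℤ) ^ n ∧
      period g (fib G q) ≠ ∞ ∧ ∃ (h : ℝ) (N : ℕ), 0 < N ∧ (∀ p, Weak (fib G q) p → p ∣ N) ∧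
        h ≤ -(1 / 2) * Real.log (period g (fib G q)).toReal + c₀ ∧ κ * Real.log N + c < h) →
      (s.card : ℝ) ≤ C₁ * (L * (B : ℝ) ^ (n - 1)) * (L * (B : ℝ) ^ n) ^ (1 - δ) := by
  classical
  have hg' : (1 : ℝ) ≤ g := by exact_mod_cast hg
  have hn2 : 2 ≤ n := by omega
  have hn0 : (0 : ℝ) < n := by
    have : 0 < n := by omega
    exact_mod_cast this
  let E : ℝ := (n : ℝ) * g - g ^ 2 - g
  have hE : 0 < E := by
    have h1 : (2 * g + 1 : ℝ) ≤ n := by
      have : 2 * g + 1 ≤ n := by omega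
      exact_mod_cast this
    simp only [E]
    nlinarith
  let κ₁ : ℝ := E / (2 * n)
  have hκ₁ : 0 < κ₁ := by positivity
  have hκ₁κ : κ₁ < κ := hκ
  have hκ0 : 0 < κ := hκ₁.trans hκ₁κ
  let κ₀ : ℝ := if (g : ℝ) / 2 < κ then (g : ℝ) / 2 else κ₁
  have hκ₀ : 0 < κ₀ := by
    simp only [κ₀]
    split_ifs
    · positivity
    · exact hκ₁
  have hκ₀κ : κ₀ < κ := by
    simp only [κ₀]
    split_ifs with h
    · exact h
    · exact hκ₁κ
  let ρ : ℝ := κ₀ / κ
  have hρ0 : 0 < ρ := by positivity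
  have hρ1 : ρ < 1 := (div_lt_one hκ0).2 hκ₀κ
  let δ : ℝ := (1 - ρ) / 2
  have hδ0 : 0 < δ := by
    simp only [δ]
    linarith
  have hδ2 : δ ≤ 1 / 2 := by
    simp only [δ]
    linarith
  have hρδ : ρ + δ = 1 - δ := by
    simp only [δ]
    ring
  let c₁ : ℝ := -(1 / 2) * Real.log (cst' g n) + c₀
  let K₁ : ℝ := Real.exp ((c₁ - c) / κ)
  have hK₁ : 0 < K₁ := Real.exp_pos _
  obtain ⟨K₃, hK₃, hslice⟩ := slice hn2 hρ0.le hρ1.le hδ0 hK₁.le
  obtain ⟨A, hA⟩ := few_linear hn2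
  refine ⟨δ, hδ0, 3 * A + 3 * K₃, fun L B hL hB hcase G hG hcoef s hs => ?_⟩
  have hB' : (1 : ℝ) ≤ B := by exact_mod_cast hB
  have hB0 : (0 : ℝ) < B := by linarith
  have hL' : (1 : ℝ) ≤ L := by exact_mod_cast hL
  have hL0 : (0 : ℝ) < L := by linarith
  let T : ℕ := L * B ^ n
  let U : ℕ := L * B ^ (n - 1)
  have hT : (T : ℝ) = L * (B : ℝ) ^ n := by
    simp only [T]
    push_cast
    ring
  have hU : (U : ℝ) = L * (B : ℝ) ^ (n - 1) := by
    simp only [U]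
    push_cast
    ring
  have hT1 : 1 ≤ T := Nat.mul_pos hL (Nat.pow_pos hB)
  have hU1 : 1 ≤ U := Nat.mul_pos hL (Nat.pow_pos hB)
  have hT' : (1 : ℝ) ≤ T := by exact_mod_cast hT1
  have hU' : (1 : ℝ) ≤ U := by exact_mod_cast hU1
  have hT0 : (0 : ℝ) < T := by linarith
  have hbig : ∀ i, 2 * L * (B : ℤ) ^ (n - i) ≤ ((2 * T : ℕ) : ℤ) := by
    intro i
    have h1 : (B : ℤ) ^ (n - i) ≤ (B : ℤ) ^ n := pow_le_pow_right₀ (by exact_mod_cast hB) (Nat.sub_le _ _)
    simp only [T]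
    push_cast
    calc 2 * L * (B : ℤ) ^ (n - i) ≤ 2 * L * (B : ℤ) ^ n := mul_le_mul_of_nonneg_left h1 (by positivity)
      _ = 2 * (L * (B : ℤ) ^ n) := by ring
  -- the exceptional members have a small conductor
  have hsmall : ∀ q ∈ s, ∃ N : ℕ, 0 < N ∧ (N : ℝ) ≤ K₁ * (T : ℝ) ^ ρ ∧
      ∀ p, Weak (fib G q) p → p ∣ N := by
    intro q hq
    obtain ⟨h1, h2, hfin, h, N, hN0, hN, hh, hviol⟩ := hs q hq
    refine ⟨N, hN0, ?_, hN⟩
    have hN0' : (0 : ℝ) < N := by exact_mod_cast hN0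
    have h3 := height_bound hg hL hB (natDegree_fib hn2 hG q).le (coeff_fib hcoef h1 h2) hfin hh
    have hlB : 0 ≤ Real.log B := Real.log_nonneg hB'
    have hlL : 0 ≤ Real.log L := Real.log_nonneg hL'
    have hlT : Real.log T = Real.log L + n * Real.log B := by
      rw [hT, Real.log_mul (by positivity) (by positivity), Real.log_pow]
    have h4 : (g * Real.log L + ((n : ℝ) * g - g ^ 2 - g) * Real.log B) / 2 ≤ κ₀ * Real.log T := by
      rw [hlT]
      by_cases hc : (g : ℝ) / 2 < κ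
      · have e1 : κ₀ = (g : ℝ) / 2 := by simp only [κ₀, hc, if_true]
        rw [e1]
        have e2 : 0 ≤ ((g : ℝ) ^ 2 + g) * Real.log B := by positivity
        linarith
      · have e1 : κ₀ = κ₁ := by simp only [κ₀, hc, if_false]
        have e2 : L = 1 := hcase.resolve_right hc
        have e3 : Real.log L = 0 := by rw [e2]; simp
        rw [e1, e3]
        simp only [κ₁, E]
        refine le_of_eq ?_
        field_simp
        ring
    have h5 : κ * Real.log N < κ₀ * Real.log T + (c₁ - c) := by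
      have h6 : h ≤ (g * Real.log L + ((n : ℝ) * g - g ^ 2 - g) * Real.log B) / 2 + c₁ := h3
      linarith
    have h6 : Real.log N < Real.log (K₁ * (T : ℝ) ^ ρ) := by
      rw [Real.log_mul hK₁.ne' (by positivity), Real.log_exp, Real.log_rpow hT0]
      have h7 : κ * ((c₁ - c) / κ + ρ * Real.log T) = κ₀ * Real.log T + (c₁ - c) := by
        simp only [ρ]
        field_simp
        ring
      have h8 : κ * Real.log N < κ * ((c₁ - c) / κ + ρ * Real.log T) := by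
        rw [h7]
        exact h5
      exact lt_of_mul_lt_mul_left h8 hκ0.le
    exact (((Real.log_lt_log_iff hN0' (by positivity)).1 h6)).le
  -- one slice
  have hgood : ∀ u : ℤ, |u| ≤ (U : ℤ) → disc2 n (G + C u * X) ≠ 0 →
      ((s.filter fun q => q.1 = u).card : ℝ) ≤ K₃ * (T : ℝ) ^ (1 - δ) := by
    intro u hu hdisc
    have hu' : |u| ≤ L * (B : ℤ) ^ (n - 1) := by
      simp only [U] at hu
      push_cast at hu
      exact hu
    have h1 : (s.filter fun q => q.1 = u).card = ((s.filter fun q => q.1 = u).image Prod.snd).card := by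
      rw [Finset.card_image_of_injOn]
      intro q hq q' hq' h
      have e1 := (Finset.mem_filter.1 hq).2
      have e2 := (Finset.mem_filter.1 hq').2
      exact Prod.ext (e1.trans e2.symm) h
    rw [h1, ← hρδ]
    refine hslice T hT1 (G + C u * X) (natDegree_lin hn2 hG u)
      (fun i => (coeff_lin hcoef hu' i).trans (hbig i)) hdisc _ fun t ht => ?_
    obtain ⟨q, hq, rfl⟩ := Finset.mem_image.1 ht
    obtain ⟨hqs, hqu⟩ := Finset.mem_filter.1 hq
    have e3 : G + C u * X + C q.2 = fib G q := by rw [fib, hqu]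
    rw [e3]
    obtain ⟨h2, h3, -⟩ := hs q hqs
    exact ⟨fun i => (coeff_fib hcoef h2 h3 i).trans (hbig i), hsmall q hqs⟩
  have hbad : ∀ u : ℤ, ((s.filter fun q => q.1 = u).card : ℝ) ≤ 3 * T := by
    intro u
    have h1 : (s.filter fun q => q.1 = u).card ≤ (Finset.Icc (-(T : ℤ)) T).card := by
      refine Finset.card_le_card_of_injOn Prod.snd (fun q hq => ?_) fun q hq q' hq' h => ?_
      · obtain ⟨hqs, hqu⟩ := Finset.mem_filter.1 hq
        rw [Finset.mem_coe, Finset.mem_Icc]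
        have h3 := (hs q hqs).2.1
        refine abs_le.1 ?_
        simp only [T]
        push_cast
        exact h3
      · have e1 := (Finset.mem_filter.1 hq).2
        have e2 := (Finset.mem_filter.1 hq').2
        exact Prod.ext (e1.trans e2.symm) h
    rw [card_Icc_sym] at h1
    have h2 : ((s.filter fun q => q.1 = u).card : ℝ) ≤ 2 * T + 1 := by exact_mod_cast h1
    linarith
  let I : Finset ℤ := Finset.Icc (-(U : ℤ)) U
  have hsI : ∀ q ∈ s, q.1 ∈ I := by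
    intro q hq
    rw [Finset.mem_Icc]
    refine abs_le.1 ?_
    simp only [U]
    push_cast
    exact (hs q hq).1
  have hI : (I.card : ℝ) ≤ 3 * U := by
    have h1 : I.card = 2 * U + 1 := card_Icc_sym U
    rw [h1]
    push_cast
    linarith
  have hsum : (s.card : ℝ) = ∑ u ∈ I, ((s.filter fun q => q.1 = u).card : ℝ) := by
    exact_mod_cast Finset.card_eq_sum_card_fiberwise hsI
  let I₀ := I.filter fun u => disc2 n (G + C u * X) = 0
  have hI₀ : (I₀.card : ℝ) ≤ A := by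
    have := hA G hG I₀ fun u hu => (Finset.mem_filter.1 hu).2
    exact_mod_cast this
  have hterm : ∀ u ∈ I, ((s.filter fun q => q.1 = u).card : ℝ) ≤
      K₃ * (T : ℝ) ^ (1 - δ) + if u ∈ I₀ then 3 * (T : ℝ) else 0 := by
    intro u hu
    split_ifs with h
    · have h1 := hbad u
      have h2 : 0 ≤ K₃ * (T : ℝ) ^ (1 - δ) := by positivity
      linarith
    · rw [add_zero]
      refine hgood u (abs_le.2 (Finset.mem_Icc.1 hu)) fun h0 => h ?_
      exact Finset.mem_filter.2 ⟨hu, h0⟩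
  have hTδ : (T : ℝ) ≤ U * (T : ℝ) ^ (1 - δ) := by
    have h1 : (T : ℝ) ≤ (U : ℝ) ^ 2 := by
      rw [hT, hU, mul_pow, ← pow_mul]
      have h2 : (L : ℝ) ≤ (L : ℝ) ^ 2 := by nlinarith
      have h3 : (B : ℝ) ^ n ≤ (B : ℝ) ^ ((n - 1) * 2) := pow_le_pow_right₀ hB' (by omega)
      exact mul_le_mul h2 h3 (by positivity) (by positivity)
    have h2 : (T : ℝ) ^ δ ≤ U := by
      calc (T : ℝ) ^ δ ≤ (T : ℝ) ^ (1 / 2 : ℝ) := Real.rpow_le_rpow_of_exponent_le hT' hδ2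
        _ ≤ ((U : ℝ) ^ 2) ^ (1 / 2 : ℝ) := Real.rpow_le_rpow hT0.le h1 (by norm_num)
        _ = U := by
          rw [← Real.sqrt_eq_rpow, Real.sqrt_sq (by linarith)]
    calc (T : ℝ) = (T : ℝ) ^ δ * (T : ℝ) ^ (1 - δ) := by
          rw [← Real.rpow_add hT0]
          simp
      _ ≤ U * (T : ℝ) ^ (1 - δ) := mul_le_mul_of_nonneg_right h2 (by positivity)
  rw [← hT, ← hU]
  calc (s.card : ℝ) = ∑ u ∈ I, ((s.filter fun q => q.1 = u).card : ℝ) := hsum
    _ ≤ ∑ u ∈ I, (K₃ * (T : ℝ) ^ (1 - δ) + if u ∈ I₀ then 3 * (T : ℝ) else 0) :=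
        Finset.sum_le_sum hterm
    _ = I.card * (K₃ * (T : ℝ) ^ (1 - δ)) + I₀.card * (3 * (T : ℝ)) := by
        rw [Finset.sum_add_distrib, Finset.sum_const, nsmul_eq_mul, ← Finset.sum_filter]
        have h1 : I.filter (fun u => u ∈ I₀) = I₀ := by
          ext u
          simp only [Finset.mem_filter, I₀]
          tauto
        rw [h1, Finset.sum_const, nsmul_eq_mul]
    _ ≤ (3 * U) * (K₃ * (T : ℝ) ^ (1 - δ)) + A * (3 * (U * (T : ℝ) ^ (1 - δ))) := by
        refine add_le_add (mul_le_mul_of_nonneg_right hI (by positivity)) ?_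
        exact mul_le_mul hI₀ (by linarith) (by positivity) (by positivity)
    _ = (3 * A + 3 * K₃) * U * (T : ℝ) ^ (1 - δ) := by ring

end Pool.Agent.Helper53.AC
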