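import Pool.Agent.Helper53.AC.Generic

/-!
# One slice
-/

set_option autoImplicit false

open Polynomial

namespace Pool.Agent.Helper53.AC

lemma crit_natDegree_int {n : ℕ} (hn : 2 ≤ n) {F : ℤ[X]} (hF : F.natDegree = n) :
    (crit n F).natDegree = n - 1 := by
  have hinj : Function.Injective (Int.castRingHom ℂ) := Int.cast_injective
  have h1 : (F.map (Int.castRingHom ℂ)).natDegree = n := by
    rw [natDegree_map_eq_of_injective hinj, hF]
  have hnK : (n : ℂ) ≠ 0 := by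
    have : n ≠ 0 := by omega
    exact_mod_cast this
  have h2 := crit_natDegree hn h1 hnK
  rwa [crit_map, natDegree_map_eq_of_injective hinj] at h2

/-- **The members of a pencil with a small conductor.** -/
theorem slice {n : ℕ} (hn : 2 ≤ n) {ρ δ K₁ : ℝ} (hρ : 0 ≤ ρ) (hρ1 : ρ ≤ 1) (hδ : 0 < δ) (hK₁ : 0 ≤ K₁) :
    ∃ K₃ : ℝ, 0 ≤ K₃ ∧ ∀ T : ℕ, 1 ≤ T → ∀ F : ℤ[X], F.natDegree = n →
      (∀ i, |F.coeff i| ≤ ((2 * T : ℕ) : ℤ)) → disc2 n F ≠ 0 → ∀ s : Finset ℤ,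
      (∀ t ∈ s, (∀ i, |(F + C t).coeff i| ≤ ((2 * T : ℕ) : ℤ)) ∧
        ∃ N : ℕ, 0 < N ∧ (N : ℝ) ≤ K₁ * (T : ℝ) ^ ρ ∧ ∀ p, Weak (F + C t) p → p ∣ N) →
      (s.card : ℝ) ≤ K₃ * (T : ℝ) ^ (ρ + δ) := by
  classical
  obtain ⟨K, A, hr⟩ := size_rr n
  obtain ⟨K', A', hd⟩ := size_disc2 n
  let A₂ : ℕ := A + A' + 2
  have hA₂ : (0 : ℝ) < A₂ := by
    have : 0 < A₂ := by omega
    exact_mod_cast this
  let ε : ℝ := δ / A₂
  have hε : 0 < ε := by positivity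
  obtain ⟨C₀, hC₀, hcount⟩ := count_away ε hε
  let K₂ : ℝ := K * 2 ^ A * K₁ * (2 * n * 2 * K' * 2 ^ A')
  have hK₂ : 0 ≤ K₂ := by positivity
  refine ⟨2 * (n - 1 : ℕ) * (1 + C₀ * K₁ * K₂ ^ ε), by positivity,
    fun T hT F hF hcoef hdisc s hs => ?_⟩
  have hT' : (1 : ℝ) ≤ T := by exact_mod_cast hT
  have hT0 : (0 : ℝ) < T := by linarith
  have hF0 : F.leadingCoeff ≠ 0 := by
    rw [Ne, leadingCoeff_eq_zero]
    rintro rfl
    simp at hF
    omega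
  let M : ℕ := (2 * n * F.leadingCoeff * disc2 n F).natAbs
  have hM : 1 ≤ M := by
    have h0 : (2 * n * F.leadingCoeff * disc2 n F : ℤ) ≠ 0 := by
      have hn0 : (n : ℤ) ≠ 0 := by
        have : n ≠ 0 := by omega
        exact_mod_cast this
      exact mul_ne_zero (mul_ne_zero (mul_ne_zero two_ne_zero hn0) hF0) hdisc
    have := Int.natAbs_pos.2 h0
    omega
  have hMle : (M : ℝ) ≤ (2 * n * 2 * K' * 2 ^ A') * (T : ℝ) ^ (A' + 1) := by
    have h1 := hd F hF.le (2 * T) (by omega) hcoef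
    have h2 : |F.leadingCoeff| ≤ ((2 * T : ℕ) : ℤ) := hcoef _
    have h3 : ((M : ℕ) : ℤ) = 2 * n * |F.leadingCoeff| * |disc2 n F| := by
      rw [Int.natCast_natAbs, abs_mul, abs_mul, abs_of_nonneg (by positivity : (0 : ℤ) ≤ 2 * n)]
    have h4 : ((M : ℕ) : ℤ) ≤ 2 * n * ((2 * T : ℕ) : ℤ) * (K' * ((2 * T : ℕ) : ℤ) ^ A') := by
      rw [h3]
      exact mul_le_mul (mul_le_mul_of_nonneg_left h2 (by positivity)) h1 (abs_nonneg _) (by positivity)
    have h5 : (M : ℝ) ≤ 2 * n * (2 * T) * (K' * (2 * T) ^ A') := by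
      have h6 : ((M : ℤ) : ℝ) ≤ ((2 * n * ((2 * T : ℕ) : ℤ) * (K' * ((2 * T : ℕ) : ℤ) ^ A') : ℤ) : ℝ) :=
        Int.cast_le.2 h4
      push_cast at h6
      exact h6
    refine h5.trans (le_of_eq ?_)
    rw [mul_pow]
    ring
  let Z : ℕ := K * (2 * T) ^ A
  have hZ : (Z : ℝ) = K * 2 ^ A * (T : ℝ) ^ A := by
    simp only [Z]
    push_cast
    rw [mul_pow]
    ring
  let Y : ℕ := ⌊K₁ * (T : ℝ) ^ ρ⌋₊
  have hY0 : (Y : ℝ) ≤ K₁ * (T : ℝ) ^ ρ := Nat.floor_le (by positivity)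
  have hY1 : (Y : ℝ) ≤ K₁ * T := by
    refine hY0.trans (mul_le_mul_of_nonneg_left ?_ hK₁)
    calc (T : ℝ) ^ ρ ≤ (T : ℝ) ^ (1 : ℝ) := Real.rpow_le_rpow_of_exponent_le hT' hρ1
      _ = T := Real.rpow_one _
  let S : Finset ℕ := insert 0 ((Finset.Icc 1 Z).filter fun D => away M D ≤ Y)
  have hsS : ∀ t ∈ s, ((crit n F).eval t).natAbs ∈ S := by
    intro t ht
    obtain ⟨hct, N, hN0, hNle, hN⟩ := hs t ht
    by_cases h0 : ((crit n F).eval t).natAbs = 0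
    · rw [h0]
      exact Finset.mem_insert_self _ _
    · refine Finset.mem_insert_of_mem ?_
      rw [Finset.mem_filter, Finset.mem_Icc]
      refine ⟨⟨by omega, ?_⟩, ?_⟩
      · have h1 : |(crit n F).eval t| ≤ K * ((2 * T : ℕ) : ℤ) ^ A := by
          rw [crit_eval_rr]
          refine hr _ ?_ (2 * T) (by omega) hct
          rw [natDegree_add_C, hF]
        have h2 : ((((crit n F).eval t).natAbs : ℕ) : ℤ) ≤ ((Z : ℕ) : ℤ) := by
          rw [Int.natCast_natAbs]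
          simp only [Z]
          push_cast at h1 ⊢
          exact h1
        exact_mod_cast h2
      · have h1 : away M ((crit n F).eval t).natAbs ∣ N := by
          refine Finset.prod_primes_dvd N (fun p hp => ?_) fun p hp => ?_
          · exact (Nat.prime_of_mem_primeFactors (Finset.mem_filter.1 hp).1).prime
          · obtain ⟨hp1, hp2⟩ := Finset.mem_filter.1 hp
            refine hN p (weak_of_dvd hn hF (Nat.prime_of_mem_primeFactors hp1) ?_ ?_)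
            · rw [← Int.natCast_dvd] at hp2
              exact hp2
            · exact Int.natCast_dvd.2 (Nat.dvd_of_mem_primeFactors hp1)
        have h2 := Nat.le_of_dvd hN0 h1
        have h3 : N ≤ Y := Nat.le_floor hNle
        omega
  have h1 := count_poly (crit n F) (crit_natDegree_int hn hF) (by omega) S s hsS
  have h2 : (S.card : ℝ) ≤ 1 + C₀ * Y * ((Z : ℝ) * (Y * M)) ^ ε := by
    have h3 : S.card ≤ ((Finset.Icc 1 Z).filter fun D => away M D ≤ Y).card + 1 :=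
      Finset.card_insert_le _ _
    have h4 : (S.card : ℝ) ≤ (((Finset.Icc 1 Z).filter fun D => away M D ≤ Y).card : ℝ) + 1 := by
      exact_mod_cast h3
    have h5 := hcount M Z Y hM
    linarith
  have h3 : (Z : ℝ) * (Y * M) ≤ K₂ * (T : ℝ) ^ A₂ := by
    calc (Z : ℝ) * (Y * M) ≤ (K * 2 ^ A * (T : ℝ) ^ A) * ((K₁ * T) *
          ((2 * n * 2 * K' * 2 ^ A') * (T : ℝ) ^ (A' + 1))) := by
          rw [hZ]
          refine mul_le_mul_of_nonneg_left ?_ (by positivity)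
          exact mul_le_mul hY1 hMle (by positivity) (by positivity)
      _ = K₂ * (T : ℝ) ^ A₂ := by
          simp only [K₂, A₂]
          ring
  have h4 : ((Z : ℝ) * (Y * M)) ^ ε ≤ K₂ ^ ε * (T : ℝ) ^ δ := by
    calc ((Z : ℝ) * (Y * M)) ^ ε ≤ (K₂ * (T : ℝ) ^ A₂) ^ ε :=
          Real.rpow_le_rpow (by positivity) h3 hε.le
      _ = K₂ ^ ε * (T : ℝ) ^ δ := by
          rw [Real.mul_rpow hK₂ (by positivity), ← Real.rpow_natCast, ← Real.rpow_mul hT0.le]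
          congr 2
          simp only [ε]
          field_simp
  have h5 : (1 : ℝ) ≤ (T : ℝ) ^ (ρ + δ) := Real.one_le_rpow hT' (by positivity)
  have h6 : (S.card : ℝ) ≤ (1 + C₀ * K₁ * K₂ ^ ε) * (T : ℝ) ^ (ρ + δ) := by
    calc (S.card : ℝ) ≤ 1 + C₀ * Y * ((Z : ℝ) * (Y * M)) ^ ε := h2
      _ ≤ 1 + C₀ * (K₁ * (T : ℝ) ^ ρ) * (K₂ ^ ε * (T : ℝ) ^ δ) := by
          gcongr
      _ = 1 + C₀ * K₁ * K₂ ^ ε * (T : ℝ) ^ (ρ + δ) := by
          rw [Real.rpow_add hT0]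
          ring
      _ ≤ (T : ℝ) ^ (ρ + δ) + C₀ * K₁ * K₂ ^ ε * (T : ℝ) ^ (ρ + δ) := by linarith
      _ = _ := by ring
  calc (s.card : ℝ) ≤ ((2 * (n - 1) * S.card : ℕ) : ℝ) := by exact_mod_cast h1
    _ = 2 * (n - 1 : ℕ) * (S.card : ℝ) := by push_cast; ring
    _ ≤ 2 * (n - 1 : ℕ) * ((1 + C₀ * K₁ * K₂ ^ ε) * (T : ℝ) ^ (ρ + δ)) :=
        mul_le_mul_of_nonneg_left h6 (by positivity)
    _ = _ := by ring

end Pool.Agent.Helper53.AC
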