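import Pool.Agent.Helper53.FJ.Period
import Pool.Agent.Helper53.AC.Slice

/-!
# The volume of the Jacobian of a hyperelliptic curve
-/

set_option autoImplicit false

open Polynomial MeasureTheory Pool.Agent.Helper53.FJ
open scoped ENNReal

namespace Pool.Agent.Helper53.AC

/-- The integral of `∏_{j < k} |x_j - x_k| ^ 2 / ∏_k |f (x_k)|` over `ℂ ^ g`. -/
noncomputable def period (g : ℕ) (f : ℤ[X]) : ℝ≥0∞ :=
  ∫⁻ x : Fin g → ℂ, ENNReal.ofReal (∏ q ∈ Q g, ‖x q.1 - x q.2‖ ^ 2) /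
    ENNReal.ofReal (∏ k, ‖aeval (x k) f‖)

lemma aeval_bound {n L B : ℕ} (hB : 1 ≤ B) {f : ℤ[X]} (hf : f.natDegree ≤ n)
    (ha : ∀ i, |f.coeff i| ≤ 2 * L * (B : ℤ) ^ (n - i)) {z : ℂ} (hz : ‖z‖ ≤ B) :
    ‖aeval z f‖ ≤ (n + 1) * (2 * L * (B : ℝ) ^ n) := by
  have hB' : (1 : ℝ) ≤ B := by exact_mod_cast hB
  rw [aeval_eq_sum_range' (Nat.lt_succ_of_le hf)]
  calc ‖∑ i ∈ Finset.range (n + 1), f.coeff i • z ^ i‖
      ≤ ∑ i ∈ Finset.range (n + 1), ‖f.coeff i • z ^ i‖ := norm_sum_le _ _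
    _ ≤ ∑ _i ∈ Finset.range (n + 1), 2 * L * (B : ℝ) ^ n := by
        refine Finset.sum_le_sum fun i hi => ?_
        have hi' : i ≤ n := Nat.lt_succ_iff.1 (Finset.mem_range.1 hi)
        rw [zsmul_eq_mul, norm_mul, norm_pow, Complex.norm_intCast]
        have h1 : |((f.coeff i : ℤ) : ℝ)| ≤ 2 * L * (B : ℝ) ^ (n - i) := by
          have := ha i
          exact_mod_cast this
        calc |((f.coeff i : ℤ) : ℝ)| * ‖z‖ ^ i ≤ (2 * L * (B : ℝ) ^ (n - i)) * (B : ℝ) ^ i :=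
              mul_le_mul h1 (pow_le_pow_left₀ (norm_nonneg _) hz i) (by positivity) (by positivity)
          _ = 2 * L * (B : ℝ) ^ n := by
              rw [mul_assoc, ← pow_add, Nat.sub_add_cancel hi']
    _ = (n + 1) * (2 * L * (B : ℝ) ^ n) := by
        rw [Finset.sum_const, Finset.card_range, nsmul_eq_mul]
        push_cast
        ring

/-- The constant. -/
noncomputable def cst' (g n : ℕ) : ℝ :=
  ((1 : ℝ) / (2 * g)) ^ (2 * (Q g).card) / (((n : ℝ) + 1) * 2) ^ g * ((1 / (4 * (g : ℝ))) ^ 2 * Real.pi) ^ g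

lemma cst'_pos {g n : ℕ} (hg : 1 ≤ g) : 0 < cst' g n := by
  have hg' : (0 : ℝ) < g := by exact_mod_cast hg
  unfold cst'
  have := Real.pi_pos
  positivity

/-- **Lower bound for the period.** -/
theorem period_large {g n L B : ℕ} (hg : 1 ≤ g) (hL : 1 ≤ L) (hB : 1 ≤ B) {f : ℤ[X]}
    (hf : f.natDegree ≤ n) (ha : ∀ i, |f.coeff i| ≤ 2 * L * (B : ℤ) ^ (n - i)) :
    ENNReal.ofReal (cst' g n * ((B : ℝ) ^ (2 * (Q g).card) * ((B : ℝ) ^ 2) ^ g /
      ((L : ℝ) * (B : ℝ) ^ n) ^ g)) ≤ period g f := by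
  have hg' : (0 : ℝ) < g := by exact_mod_cast hg
  have hB' : (1 : ℝ) ≤ B := by exact_mod_cast hB
  have hB0 : (0 : ℝ) < B := by linarith
  have hL0 : (0 : ℝ) < L := by exact_mod_cast hL
  let r : ℝ := B / (4 * g)
  let R : Set (Fin g → ℂ) := Set.pi Set.univ fun k => Metric.ball (ctr g B k) r
  have hR : MeasurableSet R := MeasurableSet.univ_pi fun k => measurableSet_ball
  have hvol : volume R = ENNReal.ofReal ((r ^ 2 * Real.pi) ^ g) := by
    rw [volume_pi_pi]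
    simp only [Complex.volume_ball]
    rw [Finset.prod_const, Finset.card_univ, Fintype.card_fin]
    have e1 : ((NNReal.pi : NNReal) : ℝ≥0∞) = ENNReal.ofReal Real.pi := by
      rw [← NNReal.coe_real_pi, ENNReal.ofReal_coe_nnreal]
    rw [e1, ← ENNReal.ofReal_pow (by positivity), ← ENNReal.ofReal_mul (by positivity),
      ← ENNReal.ofReal_pow (by positivity)]
  let v : ℝ := ((B : ℝ) / (2 * g)) ^ (2 * (Q g).card) / ((n + 1) * (2 * L * (B : ℝ) ^ n)) ^ g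
  have hv : 0 ≤ v := by positivity
  have hpt : ∀ x ∈ R, ENNReal.ofReal v ≤ ENNReal.ofReal (∏ q ∈ Q g, ‖x q.1 - x q.2‖ ^ 2) /
      ENNReal.ofReal (∏ k, ‖aeval (x k) f‖) := by
    intro x hx
    have hx' : ∀ k, x k ∈ Metric.ball (ctr g B k) (B / (4 * g)) := fun k => hx k (Set.mem_univ k)
    have h1 : ((B : ℝ) / (2 * g)) ^ (2 * (Q g).card) ≤ ∏ q ∈ Q g, ‖x q.1 - x q.2‖ ^ 2 := by
      calc ((B : ℝ) / (2 * g)) ^ (2 * (Q g).card) = ∏ _q ∈ Q g, ((B : ℝ) / (2 * g)) ^ 2 := by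
            rw [Finset.prod_const, ← pow_mul]
        _ ≤ ∏ q ∈ Q g, ‖x q.1 - x q.2‖ ^ 2 := by
            refine Finset.prod_le_prod (fun _ _ => by positivity) fun q hq => ?_
            exact pow_le_pow_left₀ (by positivity)
              (region_diff hg (mem_Q.1 hq).ne (hx' q.1) (hx' q.2)) 2
    have h2 : ∏ k, ‖aeval (x k) f‖ ≤ ((n + 1) * (2 * L * (B : ℝ) ^ n)) ^ g := by
      calc ∏ k, ‖aeval (x k) f‖ ≤ ∏ _k : Fin g, ((n + 1) * (2 * L * (B : ℝ) ^ n)) := by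
            refine Finset.prod_le_prod (fun _ _ => by positivity) fun k _ => ?_
            exact aeval_bound hB hf ha (region_norm hg hB (hx' k))
        _ = ((n + 1) * (2 * L * (B : ℝ) ^ n)) ^ g := by simp
    have h3 : ENNReal.ofReal v = ENNReal.ofReal (((B : ℝ) / (2 * g)) ^ (2 * (Q g).card)) /
        ENNReal.ofReal (((n + 1) * (2 * L * (B : ℝ) ^ n)) ^ g) :=
      ENNReal.ofReal_div_of_pos (by positivity)
    rw [h3]
    exact ENNReal.div_le_div (ENNReal.ofReal_le_ofReal h1) (ENNReal.ofReal_le_ofReal h2)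
  have hcst : cst' g n * ((B : ℝ) ^ (2 * (Q g).card) * ((B : ℝ) ^ 2) ^ g /
      ((L : ℝ) * (B : ℝ) ^ n) ^ g) = v * (r ^ 2 * Real.pi) ^ g := by
    simp only [cst', v, r, div_pow, mul_pow]
    field_simp
    simp only [one_pow, one_mul]
  rw [hcst, ENNReal.ofReal_mul hv, ← hvol]
  calc ENNReal.ofReal v * volume R = ∫⁻ _x in R, ENNReal.ofReal v := by
        rw [setLIntegral_const]
    _ ≤ ∫⁻ x in R, ENNReal.ofReal (∏ q ∈ Q g, ‖x q.1 - x q.2‖ ^ 2) /
        ENNReal.ofReal (∏ k, ‖aeval (x k) f‖) := setLIntegral_mono' hR hpt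
    _ ≤ period g f := setLIntegral_le_lintegral _ _

/-- The bound for the height. -/
lemma height_bound {g n L B : ℕ} (hg : 1 ≤ g) (hL : 1 ≤ L) (hB : 1 ≤ B) {f : ℤ[X]}
    (hf : f.natDegree ≤ n) (ha : ∀ i, |f.coeff i| ≤ 2 * L * (B : ℤ) ^ (n - i)) {h c₀ : ℝ}
    (hfin : period g f ≠ ∞) (hh : h ≤ -(1 / 2) * Real.log (period g f).toReal + c₀) :
    h ≤ (g * Real.log L + ((n : ℝ) * g - g ^ 2 - g) * Real.log B) / 2 +
      (-(1 / 2) * Real.log (cst' g n) + c₀) := by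
  have hB' : (1 : ℝ) ≤ B := by exact_mod_cast hB
  have hB0 : (0 : ℝ) < B := by linarith
  have hL0 : (0 : ℝ) < L := by exact_mod_cast hL
  have hc := cst'_pos (n := n) hg
  have h1 := period_large hg hL hB hf ha
  have h2 : 0 < cst' g n * ((B : ℝ) ^ (2 * (Q g).card) * ((B : ℝ) ^ 2) ^ g /
      ((L : ℝ) * (B : ℝ) ^ n) ^ g) := by positivity
  have h3 : cst' g n * ((B : ℝ) ^ (2 * (Q g).card) * ((B : ℝ) ^ 2) ^ g /
      ((L : ℝ) * (B : ℝ) ^ n) ^ g) ≤ (period g f).toReal := by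
    have h4 := ENNReal.toReal_mono hfin h1
    rwa [ENNReal.toReal_ofReal h2.le] at h4
  have h5 := Real.log_le_log h2 h3
  have hQ : (2 : ℝ) * ((Q g).card : ℝ) = (g : ℝ) ^ 2 - g := by
    have h6 : (((2 * (Q g).card : ℕ)) : ℝ) = (g : ℝ) ^ 2 - g := by
      rw [card_Q, Nat.cast_mul, Nat.cast_sub hg]
      push_cast
      ring
    push_cast at h6
    exact h6
  rw [Real.log_mul hc.ne' (by positivity), Real.log_div (by positivity) (by positivity),
    Real.log_mul (by positivity) (by positivity), Real.log_pow, Real.log_pow, Real.log_pow,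
    Real.log_pow, Real.log_mul (by positivity) (by positivity), Real.log_pow] at h5
  push_cast at h5
  rw [hQ] at h5
  nlinarith

end Pool.Agent.Helper53.AC
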